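import Pool.Agent.L0h32.CX.StmU
import Pool.Agent.H630R2.LA.Upper

/-!
# Project CX (helper32), part UNI (helper59): two machines are combined in one with two sets of final states
-/

set_option autoImplicit false
set_option linter.all false

namespace Pool.Agent.L0h59.CX

open Pool.Agent.H630R2.LA Pool.Agent.L0h32.CX Relation

section sim

variable {A : Type} {strict : Prop} {M N : LimAut A}

/-- `M` simulates `N` by means of the map `e` of states and the relation `S` between symbols. -/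
structure Simu (M N : LimAut A) (e : N.Q → M.Q) (S : Sym M.W → Sym N.W → Prop) : Prop where
  lm : S .lm .lm
  rm : S .rm .rm
  inp : ∀ a, S (.sym (M.inp a)) (.sym (N.inp a))
  fwd : ∀ p σ σ₁, S σ σ₁ → ∀ q b₁ d, (q, b₁, d) ∈ N.δ p σ₁ → ∃ b, (e q, b, d) ∈ M.δ (e p) σ ∧
    S (σ.rewrite b) (σ₁.rewrite b₁) ∧ (σ₁.rewrite b₁ = σ₁ → σ.rewrite b = σ)
  bwd : ∀ p σ σ₁, S σ σ₁ → ∀ q' b d, (q', b, d) ∈ M.δ (e p) σ → ∃ q b₁, q' = e q ∧
    (q, b₁, d) ∈ N.δ p σ₁ ∧ S (σ.rewrite b) (σ₁.rewrite b₁) ∧ (σ.rewrite b = σ → σ₁.rewrite b₁ = σ₁)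

/-- The relation between configurations. -/
structure RC (e : N.Q → M.Q) (S : Sym M.W → Sym N.W → Prop) (c : Cfg M) (c₁ : Cfg N) : Prop where
  st : c.state = e c₁.state
  pos : c.pos = c₁.pos
  seen : c.seen = c₁.seen
  tape : ∀ i, S (c.tape i) (c₁.tape i)

theorem step_fwd {e : N.Q → M.Q} {S : Sym M.W → Sym N.W → Prop} (hS : Simu M N e S) {n : ℕ}
    {c : Cfg M} {c₁ c₁' : Cfg N} (hR : RC e S c c₁) (h : Step strict n c₁ c₁') :
    ∃ c', Step strict n c c' ∧ RC e S c' c₁' := by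
  obtain ⟨h1, q, b₁, d, hδ, hstr, hst, ht1, ht2, hs, hr, hl⟩ := h
  have hT := hR.tape c₁.pos
  obtain ⟨b, hb1, hb2, hb3⟩ := hS.fwd _ _ _ hT q b₁ d hδ
  classical
  refine ⟨⟨e q, c₁'.pos, if c₁.pos ∈ c₁.seen then c.tape else
    Function.update c.tape c₁.pos ((c.tape c₁.pos).rewrite b), insert c₁.pos c₁.seen⟩, ?_, ?_⟩
  · refine ⟨by rw [hR.pos]; exact h1, e q, b, d, ?_, ?_, rfl, ?_, ?_, ?_, ?_, ?_⟩
    · rw [hR.st, hR.pos]; exact hb1
    · intro g1 g2
      rw [hR.pos, hR.seen] at g2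
      rw [hR.pos]
      exact hb3 (hstr g1 g2)
    · intro g1
      rw [hR.pos, hR.seen] at g1
      exact if_pos g1
    · intro g1
      rw [hR.pos, hR.seen] at g1
      rw [hR.pos]
      exact if_neg g1
    · show insert c₁.pos c₁.seen = insert c.pos c.seen
      rw [hR.pos, hR.seen]
    · intro g
      rw [hR.pos]
      exact hr g
    · intro g
      rw [hR.pos]
      exact hl g
  · refine ⟨by rw [hst], rfl, hs.symm, fun i => ?_⟩
    by_cases hm : c₁.pos ∈ c₁.seen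
    · show S ((if c₁.pos ∈ c₁.seen then c.tape else _) i) _
      rw [if_pos hm, ht1 hm]
      exact hR.tape i
    · show S ((if c₁.pos ∈ c₁.seen then c.tape else _) i) _
      rw [if_neg hm, ht2 hm]
      by_cases hi : i = c₁.pos
      · subst hi
        rw [Function.update_self, Function.update_self]
        exact hb2
      · rw [Function.update_of_ne hi, Function.update_of_ne hi]
        exact hR.tape i

theorem step_bwd {e : N.Q → M.Q} {S : Sym M.W → Sym N.W → Prop} (hS : Simu M N e S) {n : ℕ}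
    {c c' : Cfg M} {c₁ : Cfg N} (hR : RC e S c c₁) (h : Step strict n c c') :
    ∃ c₁', Step strict n c₁ c₁' ∧ RC e S c' c₁' := by
  obtain ⟨h1, q', b, d, hδ, hstr, hst, ht1, ht2, hs, hr, hl⟩ := h
  have hT := hR.tape c.pos
  rw [hR.st] at hδ
  rw [hR.pos] at h1 hδ hstr ht1 ht2 hs hr hl hT
  rw [hR.seen] at hstr ht1 ht2 hs
  obtain ⟨q, b₁, rfl, hb1, hb2, hb3⟩ := hS.bwd _ _ _ hT q' b d hδ
  classical
  refine ⟨⟨q, c'.pos, if c₁.pos ∈ c₁.seen then c₁.tape else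
    Function.update c₁.tape c₁.pos ((c₁.tape c₁.pos).rewrite b₁), insert c₁.pos c₁.seen⟩, ?_, ?_⟩
  · exact ⟨h1, q, b₁, d, hb1, fun g1 g2 => hb3 (hstr g1 g2), rfl, fun g1 => if_pos g1,
      fun g1 => if_neg g1, rfl, fun g => hr g, fun g => hl g⟩
  · refine ⟨hst, rfl, hs, fun i => ?_⟩
    by_cases hm : c₁.pos ∈ c₁.seen
    · show S _ ((if c₁.pos ∈ c₁.seen then c₁.tape else _) i)
      rw [if_pos hm, ht1 hm]
      exact hR.tape i
    · show S _ ((if c₁.pos ∈ c₁.seen then c₁.tape else _) i)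
      rw [if_neg hm, ht2 hm]
      by_cases hi : i = c₁.pos
      · subst hi
        rw [Function.update_self, Function.update_self]
        exact hb2
      · rw [Function.update_of_ne hi, Function.update_of_ne hi]
        exact hR.tape i

theorem run_fwd {e : N.Q → M.Q} {S : Sym M.W → Sym N.W → Prop} (hS : Simu M N e S) {n : ℕ}
    {c₁ c₁' : Cfg N} (h : ReflTransGen (Step strict n) c₁ c₁') {c : Cfg M} (hR : RC e S c c₁) :
    ∃ c', ReflTransGen (Step strict n) c c' ∧ RC e S c' c₁' := by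
  induction h with
  | refl => exact ⟨c, ReflTransGen.refl, hR⟩
  | tail _ hs ih =>
    obtain ⟨c', h1, h2⟩ := ih
    obtain ⟨c'', h3, h4⟩ := step_fwd hS h2 hs
    exact ⟨c'', h1.tail h3, h4⟩

theorem run_bwd {e : N.Q → M.Q} {S : Sym M.W → Sym N.W → Prop} (hS : Simu M N e S) {n : ℕ}
    {c c' : Cfg M} (h : ReflTransGen (Step strict n) c c') {c₁ : Cfg N} (hR : RC e S c c₁) :
    ∃ c₁', ReflTransGen (Step strict n) c₁ c₁' ∧ RC e S c' c₁' := by
  induction h with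
  | refl => exact ⟨c₁, ReflTransGen.refl, hR⟩
  | tail _ hs ih =>
    obtain ⟨c', h1, h2⟩ := ih
    obtain ⟨c'', h3, h4⟩ := step_bwd hS h2 hs
    exact ⟨c'', h1.tail h3, h4⟩

/-- The first step may be made from another state. -/
theorem step_change {n : ℕ} {c c' : Cfg M} (s : M.Q)
    (hsub : ∀ σ, ∀ t ∈ M.δ c.state σ, t ∈ M.δ s σ) (h : Step strict n c c') :
    Step strict n { c with state := s } c' := by
  obtain ⟨h1, q, b, d, hδ, hstr, hst, ht1, ht2, hs, hr, hl⟩ := h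
  exact ⟨h1, q, b, d, hsub _ _ hδ, hstr, hst, ht1, ht2, hs, hr, hl⟩

theorem init_tape {e : N.Q → M.Q} {S : Sym M.W → Sym N.W → Prop} (hS : Simu M N e S) (w : List A)
    (i : ℕ) : S (initTape M w i) (initTape N w i) := by
  cases i with
  | zero => exact hS.lm
  | succ i =>
    simp only [initTape]
    cases w[i]? with
    | none => exact hS.rm
    | some a => exact hS.inp a

/-- The language of a machine which simulates `N` or another machine, whose states belong to `T`. -/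
theorem lang_eq {e : N.Q → M.Q} {S : Sym M.W → Sym N.W → Prop} (hS : Simu M N e S)
    (he : Function.Injective e) (hF : M.F = e '' N.F) (T : Set M.Q) (hTF : ∀ q ∈ T, q ∉ M.F)
    (hT : ∀ p ∈ T, ∀ σ, ∀ t ∈ M.δ p σ, t.1 ∈ T)
    (hst : ∀ σ, ∀ t ∈ M.δ M.q0 σ, t ∈ M.δ (e N.q0) σ ∨ t.1 ∈ T)
    (hst' : ∀ σ, ∀ t ∈ M.δ (e N.q0) σ, t ∈ M.δ M.q0 σ) :
    M.language strict = N.language strict := by
  ext w
  have hR0 : RC e S ({ init M w with state := e N.q0 } : Cfg M) (init N w) :=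
    ⟨rfl, rfl, rfl, init_tape hS w⟩
  constructor
  · rintro ⟨c, hc, hp, hf⟩
    rcases ReflTransGen.cases_head hc with h | ⟨c', h1, h2⟩
    · rw [← h] at hp
      have : (1 : ℕ) = w.length + 2 := hp
      omega
    · obtain ⟨g1, q, b, d, hδ, hstr, hq, ht1, ht2, hs, hr, hl⟩ := h1
      rcases hst _ _ hδ with h3 | h3
      · have h4 : Step strict w.length ({ init M w with state := e N.q0 } : Cfg M) c' :=
          ⟨g1, q, b, d, h3, hstr, hq, ht1, ht2, hs, hr, hl⟩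
        obtain ⟨c₁, h5, h6⟩ := run_bwd hS (ReflTransGen.head h4 h2) hR0
        refine ⟨c₁, h5, by rw [← h6.pos]; exact hp, ?_⟩
        rw [h6.st, hF] at hf
        obtain ⟨x, hx, hxe⟩ := hf
        rw [← he hxe]
        exact hx
      · exfalso
        have h4 : c'.state ∈ T := by rw [hq]; exact h3
        have h5 : c.state ∈ T := by
          clear hp hf hc
          induction h2 with
          | refl => exact h4
          | tail _ hs' ih =>
            obtain ⟨_, q', b', d', hδ', _, hq', _⟩ := hs'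
            rw [hq']
            exact hT _ ih _ _ hδ'
        exact hTF _ h5 hf
  · rintro ⟨c₁, hc, hp, hf⟩
    obtain ⟨c, h1, h2⟩ := run_fwd hS hc hR0
    rcases ReflTransGen.cases_head h1 with h | ⟨c', h3, h4⟩
    · have h5 := h2.pos
      rw [← h] at h5
      rw [hp] at h5
      have : (1 : ℕ) = w.length + 2 := h5
      omega
    · have h5 : Step strict w.length (init M w) c' := by
        have := step_change (M := M) M.q0 (fun σ t ht => hst' σ t ht) h3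
        exact this
      refine ⟨c, ReflTransGen.head h5 h4, by rw [h2.pos]; exact hp, ?_⟩
      rw [h2.st, hF]
      exact ⟨_, hf, rfl⟩

end sim

section comb

variable {A : Type}

/-- The symbol on the first track. -/
def S1 {V W : Type} : Sym (Option V × Option W) → Sym V → Prop
  | .lm, .lm => True
  | .rm, .rm => True
  | .sym x, .sym v => x.1 = some v
  | _, _ => False

/-- The symbol on the second track. -/
def S2 {V W : Type} : Sym (Option V × Option W) → Sym W → Prop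
  | .lm, .lm => True
  | .rm, .rm => True
  | .sym x, .sym v => x.2 = some v
  | _, _ => False

def oth1 {V W : Type} : Sym (Option V × Option W) → Option W
  | .sym x => x.2
  | _ => none

def oth2 {V W : Type} : Sym (Option V × Option W) → Option V
  | .sym x => x.1
  | _ => none

/-- The moves of the combined machine. -/
def cδ (M₁ M₂ : LimAut A) : Option (M₁.Q ⊕ M₂.Q) → Sym (Option M₁.W × Option M₂.W) →
    Set (Option (M₁.Q ⊕ M₂.Q) × (Option M₁.W × Option M₂.W) × Bool)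
  | some (.inl p), σ => {t | ∃ σ₁ q b d, S1 σ σ₁ ∧ (q, b, d) ∈ M₁.δ p σ₁ ∧
      t = (some (.inl q), (some b, oth1 σ), d)}
  | some (.inr p), σ => {t | ∃ σ₁ q b d, S2 σ σ₁ ∧ (q, b, d) ∈ M₂.δ p σ₁ ∧
      t = (some (.inr q), (oth2 σ, some b), d)}
  | none, σ => {t | (∃ σ₁ q b d, S1 σ σ₁ ∧ (q, b, d) ∈ M₁.δ M₁.q0 σ₁ ∧
      t = (some (.inl q), (some b, oth1 σ), d)) ∨ ∃ σ₁ q b d, S2 σ σ₁ ∧ (q, b, d) ∈ M₂.δ M₂.q0 σ₁ ∧
      t = (some (.inr q), (oth2 σ, some b), d)}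

/-- The combined machine. -/
def comb (M₁ M₂ : LimAut A) : LimAut A where
  Q := Option (M₁.Q ⊕ M₂.Q)
  W := Option M₁.W × Option M₂.W
  finQ := by
    have := M₁.finQ
    have := M₂.finQ
    infer_instance
  finW := by
    have := M₁.finW
    have := M₂.finW
    infer_instance
  inp a := (some (M₁.inp a), some (M₂.inp a))
  inp_inj := by
    intro a b h
    simp only [Prod.mk.injEq, Option.some.injEq] at h
    exact M₁.inp_inj h.1
  δ := cδ M₁ M₂
  q0 := none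
  F := (fun q => some (.inl q)) '' M₁.F

theorem S1_unique {V W : Type} {σ : Sym (Option V × Option W)} {σ₁ σ₂ : Sym V} (h1 : S1 σ σ₁)
    (h2 : S1 σ σ₂) : σ₁ = σ₂ := by
  cases σ <;> cases σ₁ <;> cases σ₂ <;> simp_all [S1]

theorem S2_unique {V W : Type} {σ : Sym (Option V × Option W)} {σ₁ σ₂ : Sym W} (h1 : S2 σ σ₁)
    (h2 : S2 σ σ₂) : σ₁ = σ₂ := by
  cases σ <;> cases σ₁ <;> cases σ₂ <;> simp_all [S2]

theorem S1_rw {V W : Type} {σ : Sym (Option V × Option W)} {σ₁ : Sym V} (h : S1 σ σ₁) (b : V) :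
    S1 (σ.rewrite (some b, oth1 σ)) (σ₁.rewrite b) ∧
      (σ₁.rewrite b = σ₁ ↔ σ.rewrite (some b, oth1 σ) = σ) := by
  cases σ with
  | lm => cases σ₁ <;> simp_all [S1, Sym.rewrite]
  | rm => cases σ₁ <;> simp_all [S1, Sym.rewrite]
  | sym x =>
    obtain ⟨x1, x2⟩ := x
    cases σ₁ with
    | lm => exact absurd h (by simp [S1])
    | rm => exact absurd h (by simp [S1])
    | sym v =>
      have h' : x1 = some v := h
      subst h'
      refine ⟨rfl, ?_⟩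
      simp [Sym.rewrite, oth1]

theorem S2_rw {V W : Type} {σ : Sym (Option V × Option W)} {σ₁ : Sym W} (h : S2 σ σ₁) (b : W) :
    S2 (σ.rewrite (oth2 σ, some b)) (σ₁.rewrite b) ∧
      (σ₁.rewrite b = σ₁ ↔ σ.rewrite (oth2 σ, some b) = σ) := by
  cases σ with
  | lm => cases σ₁ <;> simp_all [S2, Sym.rewrite]
  | rm => cases σ₁ <;> simp_all [S2, Sym.rewrite]
  | sym x =>
    obtain ⟨x1, x2⟩ := x
    cases σ₁ with
    | lm => exact absurd h (by simp [S2])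
    | rm => exact absurd h (by simp [S2])
    | sym v =>
      have h' : x2 = some v := h
      subst h'
      refine ⟨rfl, ?_⟩
      simp [Sym.rewrite, oth2]

theorem simu1 (M₁ M₂ : LimAut A) :
    Simu (comb M₁ M₂) M₁ (fun q => some (.inl q)) S1 := by
  refine ⟨trivial, trivial, fun a => rfl, ?_, ?_⟩
  · intro p σ σ₁ h q b₁ d hδ
    obtain ⟨h1, h2⟩ := S1_rw (W := M₂.W) h b₁
    exact ⟨(some b₁, oth1 σ), ⟨σ₁, q, b₁, d, h, hδ, rfl⟩, h1, h2.1⟩
  · rintro p σ σ₁ h q' b d ⟨σ₁', q, b₁, d', h', hδ, he⟩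
    obtain rfl := S1_unique h h'
    obtain ⟨h1, h2⟩ := Prod.mk.inj he
    obtain ⟨h3, h4⟩ := Prod.mk.inj h2
    subst h1 h3 h4
    clear h2
    obtain ⟨h1, h2⟩ := S1_rw (W := M₂.W) h b₁
    exact ⟨q, b₁, rfl, hδ, h1, h2.2⟩

theorem simu2 (M₁ M₂ : LimAut A) (G : Set (comb M₁ M₂).Q) :
    Simu (withF (comb M₁ M₂) G) M₂ (fun q => (some (.inr q) : Option (M₁.Q ⊕ M₂.Q))) S2 := by
  refine ⟨trivial, trivial, fun a => rfl, ?_, ?_⟩
  · intro p σ σ₁ h q b₁ d hδ
    obtain ⟨h1, h2⟩ := S2_rw (V := M₁.W) h b₁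
    exact ⟨(oth2 σ, some b₁), ⟨σ₁, q, b₁, d, h, hδ, rfl⟩, h1, h2.1⟩
  · rintro p σ σ₁ h q' b d ⟨σ₁', q, b₁, d', h', hδ, he⟩
    obtain rfl := S2_unique h h'
    obtain ⟨h1, h2⟩ := Prod.mk.inj he
    obtain ⟨h3, h4⟩ := Prod.mk.inj h2
    subst h1 h3 h4
    clear h2
    obtain ⟨h1, h2⟩ := S2_rw (V := M₁.W) h b₁
    exact ⟨q, b₁, rfl, hδ, h1, h2.2⟩

theorem lang1 (M₁ M₂ : LimAut A) (strict : Prop) :
    (comb M₁ M₂).language strict = M₁.language strict := by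
  refine lang_eq (simu1 M₁ M₂) ?_ rfl {q | ∃ p : M₂.Q, q = (some (.inr p) : Option (M₁.Q ⊕ M₂.Q))}
    ?_ ?_ ?_ ?_
  · intro a b h
    have h' : (some (.inl a) : Option (M₁.Q ⊕ M₂.Q)) = some (.inl b) := h
    exact Sum.inl.inj (Option.some.inj h')
  · rintro q ⟨p, rfl⟩ ⟨x, hx, hx'⟩
    have h' : (some (.inl x) : Option (M₁.Q ⊕ M₂.Q)) = some (.inr p) := hx'
    simp at h'
  · rintro q ⟨p, rfl⟩ σ t ⟨σ₁, q, b, d, h1, h2, rfl⟩
    exact ⟨q, rfl⟩
  · rintro σ t (h | ⟨σ₁, q, b, d, h1, h2, rfl⟩)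
    · exact Or.inl h
    · exact Or.inr ⟨q, rfl⟩
  · intro σ t h
    exact Or.inl h

theorem lang2 (M₁ M₂ : LimAut A) (strict : Prop) :
    (withF (comb M₁ M₂) ((fun q => (some (.inr q) : Option (M₁.Q ⊕ M₂.Q))) '' M₂.F)).language strict =
      M₂.language strict := by
  refine lang_eq (simu2 M₁ M₂ _) ?_ rfl
    {q | ∃ p : M₁.Q, q = (some (.inl p) : Option (M₁.Q ⊕ M₂.Q))} ?_ ?_ ?_ ?_
  · intro a b h
    have h' : (some (.inr a) : Option (M₁.Q ⊕ M₂.Q)) = some (.inr b) := h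
    exact Sum.inr.inj (Option.some.inj h')
  · rintro q ⟨p, rfl⟩ ⟨x, hx, hx'⟩
    have h' : (some (.inr x) : Option (M₁.Q ⊕ M₂.Q)) = some (.inl p) := hx'
    simp at h'
  · rintro q ⟨p, rfl⟩ σ t ⟨σ₁, q, b, d, h1, h2, rfl⟩
    exact ⟨q, rfl⟩
  · rintro σ t (⟨σ₁, q, b, d, h1, h2, rfl⟩ | h)
    · exact Or.inr ⟨q, rfl⟩
    · exact Or.inl h
  · intro σ t h
    exact Or.inr h

theorem arith (x y ω s n r : ℕ) (h1 : x + y + 3 ≤ s) (h2 : 4 * ω ≤ y ^ 2) (h8 : 8 ≤ s)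
    (h3 : n ≤ x * ((ω + 2) * (x * (ω * 2)))) (h4 : r ≤ s) : r + ω + 5 * n ≤ s ^ 6 := by
  have e1 : 4 * (x * y) ≤ s ^ 2 := by
    have h5 : (x + y) ^ 2 ≤ s ^ 2 := Nat.pow_le_pow_left (by omega) 2
    have h6 : 4 * (x * y) ≤ (x + y) ^ 2 := by
      zify
      nlinarith [sq_nonneg ((x : ℤ) - y)]
    exact h6.trans h5
  have e2 : 16 * (x * y) ^ 2 ≤ s ^ 4 := by
    calc 16 * (x * y) ^ 2 = (4 * (x * y)) ^ 2 := by ring
      _ ≤ (s ^ 2) ^ 2 := Nat.pow_le_pow_left e1 2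
      _ = s ^ 4 := by ring
  have e3 : 16 * (ω * (ω + 2)) ≤ y ^ 2 * (y ^ 2 + 8) := by
    calc 16 * (ω * (ω + 2)) = (4 * ω) * (4 * ω + 8) := by ring
      _ ≤ _ := Nat.mul_le_mul h2 (by omega)
  have ey : y ^ 2 ≤ s ^ 2 := Nat.pow_le_pow_left (by omega) 2
  have e4 : 256 * (x ^ 2 * (ω * (ω + 2))) ≤ s ^ 4 * (s ^ 2 + 8) := by
    calc 256 * (x ^ 2 * (ω * (ω + 2))) = (16 * x ^ 2) * (16 * (ω * (ω + 2))) := by ring
      _ ≤ (16 * x ^ 2) * (y ^ 2 * (y ^ 2 + 8)) := Nat.mul_le_mul_left _ e3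
      _ = (16 * (x * y) ^ 2) * (y ^ 2 + 8) := by ring
      _ ≤ s ^ 4 * (s ^ 2 + 8) := Nat.mul_le_mul e2 (by omega)
  have e5 : n ≤ 2 * (x ^ 2 * (ω * (ω + 2))) := by
    refine h3.trans (le_of_eq ?_)
    ring
  have s2 : 64 ≤ s ^ 2 := by nlinarith
  have s3 : 512 ≤ s ^ 3 := by
    calc 512 = 8 ^ 3 := by norm_num
      _ ≤ s ^ 3 := Nat.pow_le_pow_left h8 3
  have e6 : 256 * s ≤ s ^ 6 := by
    calc 256 * s ≤ s ^ 3 * s := Nat.mul_le_mul_right _ (by omega)
      _ = s ^ 4 := by ring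
      _ ≤ s ^ 6 := Nat.pow_le_pow_right (by omega) (by norm_num)
  have e7 : 64 * s ^ 2 ≤ s ^ 6 := by
    calc 64 * s ^ 2 ≤ s ^ 2 * s ^ 2 := Nat.mul_le_mul_right _ s2
      _ = s ^ 4 := by ring
      _ ≤ s ^ 6 := Nat.pow_le_pow_right (by omega) (by norm_num)
  have e8 : 64 * s ^ 4 ≤ s ^ 6 := by
    calc 64 * s ^ 4 ≤ s ^ 2 * s ^ 4 := Nat.mul_le_mul_right _ s2
      _ = s ^ 6 := by ring
  have e9 : s ^ 4 * (s ^ 2 + 8) = s ^ 6 + 8 * s ^ 4 := by ring
  rw [e9] at e4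
  generalize s ^ 6 = S6 at *
  generalize s ^ 4 = S4 at *
  generalize s ^ 2 = S2' at *
  generalize x ^ 2 * (ω * (ω + 2)) = Y at *
  omega

theorem size_comb [Finite A] (M₁ M₂ : LimAut A) :
    (comb M₁ M₂).size + ((fun q => (some (.inr q) : Option (M₁.Q ⊕ M₂.Q))) '' M₂.F).ncard ≤
      (M₁.size + M₂.size) ^ 6 := by
  have f1 := M₁.finQ
  have f2 := M₂.finQ
  have g1 := M₁.finW
  have g2 := M₂.finW
  have n1 : 0 < Nat.card M₁.Q := by
    have : Nonempty M₁.Q := ⟨M₁.q0⟩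
    exact Nat.card_pos
  have n2 : 0 < Nat.card M₂.Q := by
    have : Nonempty M₂.Q := ⟨M₂.q0⟩
    exact Nat.card_pos
  have cQ : Nat.card (comb M₁ M₂).Q = Nat.card M₁.Q + Nat.card M₂.Q + 1 := by
    show Nat.card (Option (M₁.Q ⊕ M₂.Q)) = _
    rw [Finite.card_option, Nat.card_sum]
  have cW : Nat.card (comb M₁ M₂).W = (Nat.card M₁.W + 1) * (Nat.card M₂.W + 1) := by
    show Nat.card (Option M₁.W × Option M₂.W) = _
    rw [Nat.card_prod, Finite.card_option, Finite.card_option]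
  have hF1 : (comb M₁ M₂).F.ncard ≤ M₁.F.ncard := Set.ncard_image_le (Set.toFinite _)
  have hF2 : ((fun q => (some (.inr q) : Option (M₁.Q ⊕ M₂.Q))) '' M₂.F).ncard ≤ M₂.F.ncard :=
    Set.ncard_image_le (Set.toFinite _)
  have hn : (comb M₁ M₂).numTrans ≤ Nat.card (comb M₁ M₂).Q * ((Nat.card (comb M₁ M₂).W + 2) *
      (Nat.card (comb M₁ M₂).Q * (Nat.card (comb M₁ M₂).W * 2))) := by
    have hq := (comb M₁ M₂).finQ
    have hw := (comb M₁ M₂).finW
    have hs := finite_Sym (comb M₁ M₂).W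
    unfold LimAut.numTrans
    have h1 : Nat.card ((comb M₁ M₂).Q × Sym (comb M₁ M₂).W × (comb M₁ M₂).Q × (comb M₁ M₂).W ×
        Bool) = Nat.card (comb M₁ M₂).Q * ((Nat.card (comb M₁ M₂).W + 2) *
      (Nat.card (comb M₁ M₂).Q * (Nat.card (comb M₁ M₂).W * 2))) := by
      rw [Nat.card_prod, Nat.card_prod, Nat.card_prod, Nat.card_prod, card_Sym]
      simp
    rw [← h1, ← Set.ncard_univ]
    exact Set.ncard_le_ncard (Set.subset_univ _) (Set.toFinite _)
  have hA : Nat.card A = Nat.card A := rfl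
  unfold LimAut.size
  rw [cQ, cW]
  rw [cQ, cW] at hn
  generalize (comb M₁ M₂).numTrans = n at *
  generalize M₁.numTrans = m1 at *
  generalize M₂.numTrans = m2 at *
  generalize (comb M₁ M₂).F.ncard = f at *
  generalize ((fun q => (some (.inr q) : Option (M₁.Q ⊕ M₂.Q))) '' M₂.F).ncard = f' at *
  generalize M₁.F.ncard = k1 at *
  generalize M₂.F.ncard = k2 at *
  generalize Nat.card M₁.Q = q1 at *
  generalize Nat.card M₂.Q = q2 at *
  generalize Nat.card M₁.W = w1 at *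
  generalize Nat.card M₂.W = w2 at *
  generalize Nat.card A = a at *
  have h4 : 4 * ((w1 + 1) * (w2 + 1)) ≤ (w1 + w2 + 2) ^ 2 := by
    zify
    nlinarith [sq_nonneg ((w1 : ℤ) - w2)]
  have key := arith (q1 + q2 + 1) (w1 + w2 + 2) ((w1 + 1) * (w2 + 1))
    (q1 + a + (w1 + 2) + 5 * m1 + 1 + k1 + (q2 + a + (w2 + 2) + 5 * m2 + 1 + k2)) n
    (q1 + q2 + 1 + a + 3 + k1 + k2) (by omega) h4 (by omega) hn (by omega)
  refine le_trans ?_ key
  generalize (w1 + 1) * (w2 + 1) = ω at *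
  omega

/-- (UNI) -/
theorem t_UNI : S_UNI := by
  intro A _ strict M₁ M₂
  exact ⟨comb M₁ M₂, _, lang1 M₁ M₂ strict, lang2 M₁ M₂ strict, size_comb M₁ M₂⟩

end comb

end Pool.Agent.L0h59.CX
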